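import Mathlib

set_option autoImplicit false

/-!
# The two-sorted equational logic of the algebras `M(A, B, F)`
-/

namespace Pool.Agent.Clonoid

universe u v w

/-- Terms of sort 1 of the two-sorted language: module terms over the ring `R` built from the
variables `var 0, var 1, ...` of sort 1. -/
inductive TermA (R : Type u) : Type u
  | var (n : ℕ) : TermA R
  | zero : TermA R
  | add (s t : TermA R) : TermA R
  | neg (t : TermA R) : TermA R
  | smul (r : R) (t : TermA R) : TermA R

/-- Terms of sort 2 of the two-sorted language: they are built from the variables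
`var 0, var 1, ...` of sort 2 and from the terms `app i args`, where `args` is a tuple of `ar i`
terms of sort 1, by the module operations over the ring `S`. -/
inductive TermB (R : Type u) (S : Type v) {ι : Type w} (ar : ι → ℕ) : Type (max u v w)
  | var (n : ℕ) : TermB R S ar
  | zero : TermB R S ar
  | add (s t : TermB R S ar) : TermB R S ar
  | neg (t : TermB R S ar) : TermB R S ar
  | smul (c : S) (t : TermB R S ar) : TermB R S ar
  | app (i : ι) (args : Fin (ar i) → TermA R) : TermB R S ar

/-- An identity is a pair of terms of the same sort. -/
inductive Identity (R : Type u) (S : Type v) {ι : Type w} (ar : ι → ℕ) : Type (max u v w)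
  | sort1 (s t : TermA R) : Identity R S ar
  | sort2 (s t : TermB R S ar) : Identity R S ar

variable {R : Type u} {S : Type v} {ι : Type w} {ar : ι → ℕ}

/-- Simultaneous substitution of the terms `σ n` for the variables `var n` in a term of sort 1. -/
noncomputable def TermA.subst (σ : ℕ → TermA R) (t : TermA R) : TermA R :=
  TermA.rec (motive := fun _ => TermA R) (fun n => σ n) .zero (fun _ _ s' t' => .add s' t')
    (fun _ t' => .neg t') (fun r _ t' => .smul r t') t

/-- Simultaneous substitution of the terms `σ n` for the variables `var n` of sort 1 and of the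
terms `τ n` for the variables `var n` of sort 2 in a term of sort 2. -/
noncomputable def TermB.subst (σ : ℕ → TermA R) (τ : ℕ → TermB R S ar) (t : TermB R S ar) :
    TermB R S ar :=
  TermB.rec (motive := fun _ => TermB R S ar) (fun n => τ n) .zero (fun _ _ s' t' => .add s' t')
    (fun _ t' => .neg t') (fun c _ t' => .smul c t')
    (fun i args => .app i fun j => (args j).subst σ) t

/-- Two-sorted equational logic: `Derivable E e` says that the identity `e` can be derived from the
set of identities `E` by substitution, reflexivity, symmetry, transitivity and replacement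
(compatibility with all the operations). -/
inductive Derivable (E : Set (Identity R S ar)) : Identity R S ar → Prop
  | ax (e : Identity R S ar) (he : e ∈ E) : Derivable E e
  | subst1 (s t : TermA R) (σ : ℕ → TermA R) (h : Derivable E (.sort1 s t)) :
      Derivable E (.sort1 (s.subst σ) (t.subst σ))
  | subst2 (s t : TermB R S ar) (σ : ℕ → TermA R) (τ : ℕ → TermB R S ar)
      (h : Derivable E (.sort2 s t)) : Derivable E (.sort2 (s.subst σ τ) (t.subst σ τ))
  | refl1 (t : TermA R) : Derivable E (.sort1 t t)
  | symm1 (s t : TermA R) (h : Derivable E (.sort1 s t)) : Derivable E (.sort1 t s)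
  | trans1 (s t u : TermA R) (h : Derivable E (.sort1 s t)) (h' : Derivable E (.sort1 t u)) :
      Derivable E (.sort1 s u)
  | add1 (s s' t t' : TermA R) (h : Derivable E (.sort1 s s')) (h' : Derivable E (.sort1 t t')) :
      Derivable E (.sort1 (.add s t) (.add s' t'))
  | neg1 (t t' : TermA R) (h : Derivable E (.sort1 t t')) : Derivable E (.sort1 (.neg t) (.neg t'))
  | smul1 (r : R) (t t' : TermA R) (h : Derivable E (.sort1 t t')) :
      Derivable E (.sort1 (.smul r t) (.smul r t'))
  | refl2 (t : TermB R S ar) : Derivable E (.sort2 t t)
  | symm2 (s t : TermB R S ar) (h : Derivable E (.sort2 s t)) : Derivable E (.sort2 t s)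
  | trans2 (s t u : TermB R S ar) (h : Derivable E (.sort2 s t)) (h' : Derivable E (.sort2 t u)) :
      Derivable E (.sort2 s u)
  | add2 (s s' t t' : TermB R S ar) (h : Derivable E (.sort2 s s'))
      (h' : Derivable E (.sort2 t t')) : Derivable E (.sort2 (.add s t) (.add s' t'))
  | neg2 (t t' : TermB R S ar) (h : Derivable E (.sort2 t t')) :
      Derivable E (.sort2 (.neg t) (.neg t'))
  | smul2 (c : S) (t t' : TermB R S ar) (h : Derivable E (.sort2 t t')) :
      Derivable E (.sort2 (.smul c t) (.smul c t'))
  | app2 (i : ι) (s t : Fin (ar i) → TermA R) (h : ∀ j, Derivable E (.sort1 (s j) (t j))) :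
      Derivable E (.sort2 (.app i s) (.app i t))

section Semantics

variable [Ring R] [Ring S] {A : Type*} {B : Type*} [AddCommGroup A] [Module R A]
  [AddCommGroup B] [Module S B]

/-- The value of a term of sort 1 in the module `A`, the variable `var n` having the value `a n`. -/
noncomputable def TermA.eval (a : ℕ → A) (t : TermA R) : A :=
  TermA.rec (motive := fun _ => A) (fun n => a n) 0 (fun _ _ x y => x + y) (fun _ x => -x)
    (fun r _ x => r • x) t

/-- The value of a term of sort 2 in the two-sorted algebra `M(A, B, F)`, the variable `var n` of
sort 1 having the value `a n` and the variable `var n` of sort 2 having the value `b n`. -/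
noncomputable def TermB.eval (F : ∀ i, (Fin (ar i) → A) → B) (a : ℕ → A) (b : ℕ → B)
    (t : TermB R S ar) : B :=
  TermB.rec (motive := fun _ => B) (fun n => b n) 0 (fun _ _ x y => x + y) (fun _ x => -x)
    (fun c _ x => c • x) (fun i args => F i fun j => (args j).eval a) t

/-- `Holds F e`: the identity `e` is true in the two-sorted algebra `M(A, B, F)`. -/
def Holds (F : ∀ i, (Fin (ar i) → A) → B) (e : Identity R S ar) : Prop :=
  Identity.rec (motive := fun _ => Prop) (fun s t => ∀ a : ℕ → A, s.eval a = t.eval a)
    (fun s t => ∀ (a : ℕ → A) (b : ℕ → B), s.eval F a b = t.eval F a b) e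

end Semantics

end Pool.Agent.Clonoid
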