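import Mathlib

set_option autoImplicit false

namespace Pool.Agent.Clonoid

/-- `IsOS φ`: the map `φ : Fin m → Fin n` is an ordered surjection, that is, it is surjective and the
least elements of its fibres are in increasing order. -/
def IsOS {n m : ℕ} (φ : Fin m → Fin n) : Prop :=
  ∃ e : Fin n → Fin m, StrictMono e ∧ (∀ p, φ (e p) = p) ∧ ∀ j, e (φ j) ≤ j

open Classical in
/-- The word with its letters marked according to whether they are first occurrences. -/
noncomputable def enc {L : Type*} (x : Σ n, (Fin n → L)) : List (L × Bool) :=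
  List.ofFn fun p => (x.2 p, decide (∀ q < p, x.2 q ≠ x.2 p))

theorem isOS_of_embedding {L : Type*} {n m : ℕ} (w : Fin n → L) (v : Fin m → L)
    (e : Fin n ↪o Fin m)
    (he : ∀ p, v (e p) = w p)
    (hfirst : ∀ p, (∀ q < p, w q ≠ w p) → ∀ q < e p, v q ≠ v (e p))
    (himg : Set.range v ⊆ Set.range w) :
    ∃ φ : Fin m → Fin n, IsOS φ ∧ v = w ∘ φ := by
  classical
  -- first occurrence in `w`
  have hocc : ∀ j : Fin m, ∃ p : Fin n, w p = v j ∧ ∀ q < p, w q ≠ w p := by
    intro j
    obtain ⟨p0, hp0⟩ := himg ⟨j, rfl⟩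
    have hne : (Finset.univ.filter fun p => w p = v j).Nonempty := ⟨p0, by simp [hp0]⟩
    refine ⟨(Finset.univ.filter fun p => w p = v j).min' hne, ?_, ?_⟩
    · have := Finset.min'_mem _ hne
      simpa using this
    · intro q hq hqe
      have h1 : w ((Finset.univ.filter fun p => w p = v j).min' hne) = v j := by
        have := Finset.min'_mem _ hne
        simpa using this
      have h2 : q ∈ Finset.univ.filter fun p => w p = v j := by
        simp [hqe, h1]
      exact absurd (Finset.min'_le _ q h2) (not_le.mpr hq)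
  choose g hg1 hg2 using hocc
  refine ⟨fun j => if h : ∃ p, e p = j then h.choose else g j, ⟨e, e.strictMono, ?_, ?_⟩, ?_⟩
  · intro p
    have h : ∃ p', e p' = e p := ⟨p, rfl⟩
    simp only [dif_pos h]
    exact e.injective h.choose_spec
  · intro j
    by_cases h : ∃ p, e p = j
    · simp only [dif_pos h]
      exact le_of_eq h.choose_spec
    · simp only [dif_neg h]
      by_contra hlt
      rw [not_le] at hlt
      apply hfirst (g j) (hg2 j) j hlt
      rw [he, hg1]
  · funext j
    simp only [Function.comp_apply]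
    by_cases h : ∃ p, e p = j
    · simp only [dif_pos h]
      rw [← he, h.choose_spec]
    · simp only [dif_neg h]
      exact (hg1 j).symm

/-- Higman's lemma for the divisibility order of words given by ordered surjections. -/
theorem words_wqo {L : Type*} [Finite L] (x : ℕ → Σ n, (Fin n → L)) :
    ∃ i j, i < j ∧ ∃ φ : Fin (x j).1 → Fin (x i).1, IsOS φ ∧ (x j).2 = (x i).2 ∘ φ := by
  classical
  have h1 : WellQuasiOrdered (fun a b : Set L => a = b) :=
    Finite.wellQuasiOrdered (fun a b : Set L => a = b)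
  have h2 : WellQuasiOrdered (fun a b : List (L × Bool) => List.SublistForall₂ (· = ·) a b) := by
    have h3 := Set.PartiallyWellOrderedOn.partiallyWellOrderedOn_sublistForall₂
      (fun a b : L × Bool => a = b) (s := Set.univ)
      (Set.finite_univ.partiallyWellOrderedOn)
    intro f
    exact h3 (fun n => ⟨f n, by simp⟩)
  have h4 := (WellQuasiOrdered.prod h1 h2) (fun n => (Set.range (x n).2, enc (x n)))
  obtain ⟨i, j, hij, himg, hsub⟩ := h4
  refine ⟨i, j, hij, ?_⟩
  simp only at himg hsub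
  rw [List.sublistForall₂_iff] at hsub
  obtain ⟨l, hl1, hl2⟩ := hsub
  have hl3 : enc (x i) = l := by
    simpa using hl1
  rw [← hl3, List.sublist_iff_exists_fin_orderEmbedding_get_eq] at hl2
  obtain ⟨f, hf⟩ := hl2
  have hn : (enc (x i)).length = (x i).1 := by simp [enc]
  have hm : (enc (x j)).length = (x j).1 := by simp [enc]
  let e : Fin (x i).1 ↪o Fin (x j).1 :=
    ((Fin.castOrderIso hn.symm).toOrderEmbedding.trans f).trans (Fin.castOrderIso hm).toOrderEmbedding
  have hkey : ∀ p : Fin (x i).1,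
      (((x i).2 p, decide (∀ q < p, (x i).2 q ≠ (x i).2 p)) : L × Bool)
        = ((x j).2 (e p), decide (∀ q < e p, (x j).2 q ≠ (x j).2 (e p))) := by
    intro p
    have := hf (Fin.cast hn.symm p)
    simp only [enc, List.get_eq_getElem, List.getElem_ofFn] at this
    exact this
  apply isOS_of_embedding (x i).2 (x j).2 e
  · intro p
    exact (congrArg Prod.fst (hkey p)).symm
  · intro p hp
    have := congrArg Prod.snd (hkey p)
    simp only at this
    rw [decide_eq_decide] at this
    exact this.mp hp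
  · exact himg.symm.subset

/-- An abstract Groebner basis argument. Families of additive subgroups `K n` of the groups of
formal sums over finite linearly ordered sets `X n`, closed under a class of strictly monotone maps
whose divisibility relation is a well quasi order, are generated by a finite set. -/
theorem exists_finite_generators {X : ℕ → Type*} [∀ n, LinearOrder (X n)]
    [∀ n, Finite (X n)] {S : Type*} [AddCommGroup S] [Finite S]
    (Mor : ∀ n m, (X n → X m) → Prop)
    (hmono : ∀ n m φ, Mor n m φ → StrictMono φ)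
    (hwqo : ∀ x : ℕ → (Σ n, X n),
      ∃ i j, i < j ∧ ∃ φ, Mor (x i).1 (x j).1 φ ∧ φ (x i).2 = (x j).2)
    (K : ∀ n, AddSubgroup (X n →₀ S))
    (hK : ∀ n m φ, Mor n m φ → ∀ c ∈ K n, Finsupp.mapDomain φ c ∈ K m) :
    ∃ T : Set (Σ n, (X n →₀ S)), T.Finite ∧ (∀ t ∈ T, t.2 ∈ K t.1) ∧
      ∀ (K' : ∀ n, AddSubgroup (X n →₀ S)),
        (∀ n m φ, Mor n m φ → ∀ c ∈ K' n, Finsupp.mapDomain φ c ∈ K' m) →
        (∀ t ∈ T, t.2 ∈ K' t.1) → ∀ n, K n ≤ K' n := by
  classical
  let L : Set ((Σ n, X n) × S) := {t | ∃ c ∈ K t.1.1, c t.1.2 = t.2 ∧ t.2 ≠ 0 ∧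
    ∀ y, t.1.2 < y → c y = 0}
  let R : ((Σ n, X n) × S) → ((Σ n, X n) × S) → Prop := fun a b =>
    (∃ φ, Mor a.1.1 b.1.1 φ ∧ φ a.1.2 = b.1.2) ∧ a.2 = b.2
  have hR : WellQuasiOrdered R := by
    have h1 : WellQuasiOrdered (fun a b : S => a = b) :=
      Finite.wellQuasiOrdered (fun a b : S => a = b)
    have h2 : WellQuasiOrdered (fun a b : (Σ n, X n) =>
      ∃ φ, Mor a.1 b.1 φ ∧ φ a.2 = b.2) := hwqo
    intro f
    obtain ⟨i, j, hij, h, h'⟩ := (h1.prod h2) (fun n => ((f n).2, (f n).1))
    exact ⟨i, j, hij, h', h⟩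
  have hbasis : ∃ T0 : Finset ((Σ n, X n) × S), (∀ t ∈ T0, t ∈ L) ∧
      ∀ t ∈ L, ∃ t0 ∈ T0, R t0 t := by
    by_contra hcon
    push Not at hcon
    obtain ⟨f, hf1, hf2⟩ := exists_seq_of_forall_finset_exists (fun t => t ∈ L)
      (fun a b => ¬ R a b) (by
        intro s hs
        obtain ⟨t, ht1, ht2⟩ := hcon s hs
        exact ⟨t, ht1, ht2⟩)
    obtain ⟨i, j, hij, h⟩ := hR f
    exact hf2 i j hij h
  obtain ⟨T0, hT0L, hT0⟩ := hbasis
  have hch : ∀ t : (Σ n, X n) × S, ∃ c : X t.1.1 →₀ S, t ∈ L →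
      (c ∈ K t.1.1 ∧ c t.1.2 = t.2 ∧ t.2 ≠ 0 ∧ ∀ y, t.1.2 < y → c y = 0) := by
    intro t
    by_cases ht : t ∈ L
    · obtain ⟨c, hc⟩ := ht
      exact ⟨c, fun _ => hc⟩
    · exact ⟨0, fun h => absurd h ht⟩
  choose g hg using hch
  refine ⟨(fun t : (Σ n, X n) × S => (⟨t.1.1, g t⟩ : Σ n, (X n →₀ S))) '' (T0 : Set _),
    (T0.finite_toSet).image _, ?_, ?_⟩
  · rintro _ ⟨t, ht, rfl⟩
    exact (hg t (hT0L t ht)).1
  · intro K' hK' hT n
    -- the main induction
    have key : ∀ x : X n, ∀ c ∈ K n, (∀ y, x < y → c y = 0) → c ∈ K' n := by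
      intro x
      induction x using WellFoundedLT.induction with
      | ind x ih =>
        have H : ∀ c ∈ K n, (∀ y, x ≤ y → c y = 0) → c ∈ K' n := by
          intro c hc hy
          by_cases h0 : c = 0
          · rw [h0]; exact (K' n).zero_mem
          · have hne : c.support.Nonempty := Finsupp.support_nonempty_iff.mpr h0
            have hx'mem := Finset.max'_mem _ hne
            have hx' : c (c.support.max' hne) ≠ 0 := Finsupp.mem_support_iff.mp hx'mem
            refine ih (c.support.max' hne) ?_ c hc ?_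
            · by_contra hlt
              exact hx' (hy _ (not_lt.mp hlt))
            · intro y hy'
              by_contra hcy
              exact absurd (Finset.le_max' _ y (Finsupp.mem_support_iff.mpr hcy))
                (not_le.mpr hy')
        intro c hc hy
        by_cases hcx : c x = 0
        · apply H c hc
          intro y hxy
          rcases hxy.lt_or_eq with h | h
          · exact hy y h
          · rw [← h]; exact hcx
        · have htL : ((⟨n, x⟩, c x) : (Σ n, X n) × S) ∈ L := ⟨c, hc, rfl, hcx, hy⟩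
          obtain ⟨t0, ht0, ⟨φ, hφ, hφx⟩, hs⟩ := hT0 _ htL
          obtain ⟨hg1, hg2, hg3, hg4⟩ := hg t0 (hT0L t0 ht0)
          have hinj : Function.Injective φ := (hmono _ _ _ hφ).injective
          have hdK' : Finsupp.mapDomain φ (g t0) ∈ K' n :=
            hK' _ _ φ hφ _ (hT _ ⟨t0, ht0, rfl⟩)
          have hdK : Finsupp.mapDomain φ (g t0) ∈ K n := hK _ _ φ hφ _ hg1
          have hdx : Finsupp.mapDomain φ (g t0) x = c x := by
            have h1 : x = φ t0.1.2 := hφx.symm
            have h2 : c x = g t0 t0.1.2 := by rw [hg2]; exact hs.symm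
            rw [h2, h1, Finsupp.mapDomain_apply hinj]
          have hdy : ∀ y, x < y → Finsupp.mapDomain φ (g t0) y = 0 := by
            intro y hxy
            by_cases hyr : y ∈ Set.range φ
            · obtain ⟨z, rfl⟩ := hyr
              rw [Finsupp.mapDomain_apply hinj]
              apply hg4
              rw [← (hmono _ _ _ hφ).lt_iff_lt]
              have h1 : x = φ t0.1.2 := hφx.symm
              rw [← h1]
              exact hxy
            · exact Finsupp.mapDomain_of_notMem_range _ _ hyr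
          have hsub : c - Finsupp.mapDomain φ (g t0) ∈ K' n := by
            apply H _ ((K n).sub_mem hc hdK)
            intro y hxy
            rw [Finsupp.sub_apply]
            rcases hxy.lt_or_eq with h | h
            · rw [hy y h, hdy y h, sub_zero]
            · rw [← h, hdx, sub_self]
          have := (K' n).add_mem hsub hdK'
          simpa using this
    intro c hc
    by_cases h0 : c = 0
    · rw [h0]; exact (K' n).zero_mem
    · have hne : c.support.Nonempty := Finsupp.support_nonempty_iff.mpr h0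
      refine key (c.support.max' hne) c hc ?_
      intro y hy'
      by_contra hcy
      exact absurd (Finset.le_max' _ y (Finsupp.mem_support_iff.mpr hcy)) (not_le.mpr hy')

/-- The Groebner argument for formal sums of words over a finite alphabet, several sorts of words
being allowed (indexed by `ι`), with the maps induced by ordered surjections. -/
theorem exists_finite_generators_words_aux {ι Λ S : Type*} [LinearOrder ι] [Finite ι]
    [LinearOrder Λ] [Finite Λ] [AddCommGroup S] [Finite S]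
    (K : ∀ n, AddSubgroup ((ι × (Fin n → Λ)) →₀ S))
    (hK : ∀ n m (φ : Fin m → Fin n), IsOS φ → ∀ c ∈ K n,
      Finsupp.mapDomain (fun x : ι × (Fin n → Λ) => (x.1, x.2 ∘ φ)) c ∈ K m) :
    ∃ T : Set (Σ n, ((ι × (Fin n → Λ)) →₀ S)), T.Finite ∧ (∀ t ∈ T, t.2 ∈ K t.1) ∧
      ∀ (K' : ∀ n, AddSubgroup ((ι × (Fin n → Λ)) →₀ S)),
        (∀ n m (φ : Fin m → Fin n), IsOS φ → ∀ c ∈ K' n,
          Finsupp.mapDomain (fun x : ι × (Fin n → Λ) => (x.1, x.2 ∘ φ)) c ∈ K' m) →
        (∀ t ∈ T, t.2 ∈ K' t.1) → ∀ n, K n ≤ K' n := by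
  classical
  have hfin : ∀ n, Finite (ι ×ₗ Lex (Fin n → Λ)) := fun n =>
    inferInstanceAs (Finite (ι × (Fin n → Λ)))
  have main := exists_finite_generators (X := fun n => ι ×ₗ Lex (Fin n → Λ)) (S := S)
    (fun n m f => ∃ φ : Fin m → Fin n, IsOS φ ∧
      f = fun x => toLex ((ofLex x).1, toLex (ofLex (ofLex x).2 ∘ φ)))
    ?_ ?_ K ?_
  · obtain ⟨T, hT1, hT2, hT3⟩ := main
    refine ⟨T, hT1, hT2, ?_⟩
    intro K' hK' hTK'
    refine hT3 K' ?_ hTK'
    rintro n m f ⟨φ, hφ, rfl⟩ c hc
    exact hK' n m φ hφ c hc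
  · rintro n m f ⟨φ, ⟨e, he1, he2, he3⟩, rfl⟩ x y hxy
    rw [Prod.Lex.lt_iff] at hxy ⊢
    rcases hxy with h | ⟨h1, h2⟩
    · left; exact h
    · right
      refine ⟨h1, ?_⟩
      obtain ⟨p, hp1, hp2⟩ := h2
      refine ⟨e p, ?_, ?_⟩
      · intro j hj
        have : φ j < p := by
          rw [← he1.lt_iff_lt]
          exact lt_of_le_of_lt (he3 j) hj
        exact hp1 (φ j) this
      · change ofLex (ofLex x).2 (φ (e p)) < ofLex (ofLex y).2 (φ (e p))
        rw [he2]
        exact hp2
  · intro x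
    have h1 : WellQuasiOrdered (fun a b : ι => a = b) :=
      Finite.wellQuasiOrdered (fun a b : ι => a = b)
    have h2 : WellQuasiOrdered (fun a b : (Σ n, (Fin n → Λ)) =>
      ∃ φ : Fin b.1 → Fin a.1, IsOS φ ∧ b.2 = a.2 ∘ φ) := words_wqo
    obtain ⟨i, j, hij, h, φ, hφ, hφ'⟩ := (h1.prod h2)
      (fun n => ((ofLex (x n).2).1, ⟨(x n).1, ofLex (ofLex (x n).2).2⟩))
    refine ⟨i, j, hij, _, ⟨φ, hφ, rfl⟩, ?_⟩
    simp only at h hφ'
    rw [h, ← hφ']
    rfl
  · rintro n m f ⟨φ, hφ, rfl⟩ c hc
    exact hK n m φ hφ c hc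

/-- The Groebner argument for formal sums of words over a finite alphabet. -/
theorem exists_finite_generators_words {ι Λ S : Type*} [Finite ι] [Finite Λ]
    [AddCommGroup S] [Finite S]
    (K : ∀ n, AddSubgroup ((ι × (Fin n → Λ)) →₀ S))
    (hK : ∀ n m (φ : Fin m → Fin n), IsOS φ → ∀ c ∈ K n,
      Finsupp.mapDomain (fun x : ι × (Fin n → Λ) => (x.1, x.2 ∘ φ)) c ∈ K m) :
    ∃ T : Set (Σ n, ((ι × (Fin n → Λ)) →₀ S)), T.Finite ∧ (∀ t ∈ T, t.2 ∈ K t.1) ∧
      ∀ (K' : ∀ n, AddSubgroup ((ι × (Fin n → Λ)) →₀ S)),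
        (∀ n m (φ : Fin m → Fin n), IsOS φ → ∀ c ∈ K' n,
          Finsupp.mapDomain (fun x : ι × (Fin n → Λ) => (x.1, x.2 ∘ φ)) c ∈ K' m) →
        (∀ t ∈ T, t.2 ∈ K' t.1) → ∀ n, K n ≤ K' n := by
  classical
  let _ : LinearOrder ι := linearOrderOfSTO WellOrderingRel
  let _ : LinearOrder Λ := linearOrderOfSTO WellOrderingRel
  exact exists_finite_generators_words_aux K hK

end Pool.Agent.Clonoid
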