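import Mathlib
import Pool.Agent.Clonoid.Defs
import Pool.Agent.Clonoid.Groebner

set_option autoImplicit false
set_option linter.unusedSectionVars false

/-!
# Finite equational bases of the algebras `M(A, B, F)`: the proof
-/

namespace Pool.Agent.Clonoid

universe u v w

variable {R : Type u} {S : Type v} {ι : Type w} {ar : ι → ℕ}

section Unfold

variable [Ring R] [Ring S] {A : Type*} {B : Type*} [AddCommGroup A] [Module R A]
  [AddCommGroup B] [Module S B]

@[simp] theorem TermA.eval_var (a : ℕ → A) (n : ℕ) : (TermA.var n : TermA R).eval a = a n := rfl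

@[simp] theorem TermA.eval_zero (a : ℕ → A) : (TermA.zero : TermA R).eval a = 0 := rfl

@[simp] theorem TermA.eval_add (a : ℕ → A) (s t : TermA R) :
    (TermA.add s t).eval a = s.eval a + t.eval a := rfl

@[simp] theorem TermA.eval_neg (a : ℕ → A) (t : TermA R) :
    (TermA.neg t).eval a = -t.eval a := rfl

@[simp] theorem TermA.eval_smul (a : ℕ → A) (r : R) (t : TermA R) :
    (TermA.smul r t).eval a = r • t.eval a := rfl

variable (F : ∀ i, (Fin (ar i) → A) → B) (a : ℕ → A) (b : ℕ → B)

@[simp] theorem TermB.eval_var (n : ℕ) :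
    (TermB.var n : TermB R S ar).eval F a b = b n := rfl

@[simp] theorem TermB.eval_zero : (TermB.zero : TermB R S ar).eval F a b = 0 := rfl

@[simp] theorem TermB.eval_add (s t : TermB R S ar) :
    (TermB.add s t).eval F a b = s.eval F a b + t.eval F a b := rfl

@[simp] theorem TermB.eval_neg (t : TermB R S ar) :
    (TermB.neg t).eval F a b = -t.eval F a b := rfl

@[simp] theorem TermB.eval_smul (c : S) (t : TermB R S ar) :
    (TermB.smul c t).eval F a b = c • t.eval F a b := rfl

@[simp] theorem TermB.eval_app (i : ι) (args : Fin (ar i) → TermA R) :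
    (TermB.app i args : TermB R S ar).eval F a b = F i fun j => (args j).eval a := rfl

end Unfold

section Subst

@[simp] theorem TermA.subst_add (σ : ℕ → TermA R) (s t : TermA R) :
    (TermA.add s t).subst σ = .add (s.subst σ) (t.subst σ) := rfl

@[simp] theorem TermA.subst_neg (σ : ℕ → TermA R) (t : TermA R) :
    (TermA.neg t).subst σ = .neg (t.subst σ) := rfl

@[simp] theorem TermA.subst_smul (σ : ℕ → TermA R) (r : R) (t : TermA R) :
    (TermA.smul r t).subst σ = .smul r (t.subst σ) := rfl

variable (σ : ℕ → TermA R) (τ : ℕ → TermB R S ar)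

@[simp] theorem TermB.subst_add (s t : TermB R S ar) :
    (TermB.add s t).subst σ τ = .add (s.subst σ τ) (t.subst σ τ) := rfl

@[simp] theorem TermB.subst_neg (t : TermB R S ar) :
    (TermB.neg t).subst σ τ = .neg (t.subst σ τ) := rfl

@[simp] theorem TermB.subst_smul (c : S) (t : TermB R S ar) :
    (TermB.smul c t).subst σ τ = .smul c (t.subst σ τ) := rfl

@[simp] theorem TermB.subst_app (i : ι) (args : Fin (ar i) → TermA R) :
    (TermB.app i args : TermB R S ar).subst σ τ = .app i fun j => (args j).subst σ := rfl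

end Subst

section Aux

/-- Letters: a letter assigns a ring element to each argument place of each operation. -/
abbrev Letter (R : Type u) {ι : Type w} (ar : ι → ℕ) : Type (max u w) := (Σ i, Fin (ar i)) → R

/-- Formal sums of words of length `n`. -/
abbrev Form (R : Type u) (S : Type v) [Zero S] {ι : Type w} (ar : ι → ℕ) (n : ℕ) :
    Type (max u v w) := (ι × (Fin n → Letter R ar)) →₀ S

variable [Ring R] [Ring S]

/-- The coefficients of a term of sort 1. -/
noncomputable def TermA.coef : TermA R → (ℕ →₀ R)
  | .var n => Finsupp.single n 1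
  | .zero => 0
  | .add s t => s.coef + t.coef
  | .neg t => -t.coef
  | .smul r t => r • t.coef

/-- A strict bound for the variables of a term of sort 1. -/
def TermA.bound : TermA R → ℕ
  | .var n => n + 1
  | .zero => 0
  | .add s t => max s.bound t.bound
  | .neg t => t.bound
  | .smul _ t => t.bound

/-- A strict bound for the variables of sort 1 of a term of sort 2. -/
def TermB.bound : TermB R S ar → ℕ
  | .var _ => 0
  | .zero => 0
  | .add s t => max s.bound t.bound
  | .neg t => t.bound
  | .smul _ t => t.bound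
  | .app _ args => Finset.univ.sup fun j => (args j).bound

/-- The coefficients of the variables of sort 2. -/
noncomputable def TermB.coefB : TermB R S ar → (ℕ →₀ S)
  | .var n => Finsupp.single n 1
  | .zero => 0
  | .add s t => s.coefB + t.coefB
  | .neg t => -t.coefB
  | .smul c t => c • t.coefB
  | .app _ _ => 0

open Classical in
/-- The word of length `n` of a tuple of terms. -/
noncomputable def wordOf (i : ι) (args : Fin (ar i) → TermA R) (n : ℕ) :
    Fin n → Letter R ar := fun p x =>
  if h : x.1 = i then (args (Fin.cast (by rw [h]) x.2)).coef p else 0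

/-- The coefficients of the terms `app i args`. -/
noncomputable def TermB.coefF (n : ℕ) : TermB R S ar → Form R S ar n
  | .var _ => 0
  | .zero => 0
  | .add s t => s.coefF n + t.coefF n
  | .neg t => -t.coefF n
  | .smul c t => c • t.coefF n
  | .app i args => Finsupp.single (i, wordOf i args n) 1

variable {A : Type*} {B : Type*} [AddCommGroup A] [Module R A]
  [AddCommGroup B] [Module S B]

/-- Evaluation of formal sums. -/
noncomputable def ev (F : ∀ i, (Fin (ar i) → A) → B) {n : ℕ} (q : Fin n → A) :
    Form R S ar n →+ B :=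
  Finsupp.liftAddHom fun x =>
    { toFun := fun s => s • F x.1 (fun j => ∑ p, x.2 p ⟨x.1, j⟩ • q p)
      map_zero' := zero_smul _ _
      map_add' := fun _ _ => add_smul _ _ _ }

theorem ev_single (F : ∀ i, (Fin (ar i) → A) → B) {n : ℕ} (q : Fin n → A)
    (x : ι × (Fin n → Letter R ar)) (s : S) :
    ev F q (Finsupp.single x s) = s • F x.1 (fun j => ∑ p, x.2 p ⟨x.1, j⟩ • q p) := by
  simp [ev]

theorem ev_apply (F : ∀ i, (Fin (ar i) → A) → B) {n : ℕ} (q : Fin n → A) (c : Form R S ar n) :
    ev F q c = c.sum fun x s => s • F x.1 (fun j => ∑ p, x.2 p ⟨x.1, j⟩ • q p) := by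
  simp [ev]

theorem ev_smul (F : ∀ i, (Fin (ar i) → A) → B) {n : ℕ} (q : Fin n → A) (s : S)
    (c : Form R S ar n) : ev F q (s • c) = s • ev F q c := by
  induction c using Finsupp.induction_linear with
  | zero => simp
  | add f g hf hg => rw [smul_add, map_add, map_add, smul_add, hf, hg]
  | single x t => rw [Finsupp.smul_single, ev_single, ev_single, smul_eq_mul, mul_smul]

theorem ev_push (F : ∀ i, (Fin (ar i) → A) → B) {n m : ℕ} (φ : Fin m → Fin n) (q : Fin m → A)
    (c : Form R S ar n) :
    ev F q (Finsupp.mapDomain (fun x : ι × (Fin n → Letter R ar) => (x.1, x.2 ∘ φ)) c)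
      = ev F (fun p => ∑ j with φ j = p, q j) c := by
  induction c using Finsupp.induction_linear with
  | zero => simp
  | add f g hf hg => rw [Finsupp.mapDomain_add, map_add, map_add, hf, hg]
  | single x t =>
    rw [Finsupp.mapDomain_single, ev_single, ev_single]
    congr 2
    funext j
    simp only [Function.comp_apply, Finset.smul_sum]
    rw [← Finset.sum_fiberwise (s := Finset.univ) (g := φ)]
    refine Finset.sum_congr rfl fun p _ => ?_
    refine Finset.sum_congr rfl fun k hk => ?_
    rw [(Finset.mem_filter.mp hk).2]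

theorem TermA.coef_eq_zero (t : TermA R) {n : ℕ} (hn : t.bound ≤ n) : t.coef n = 0 := by
  induction t with
  | var k =>
    simp only [TermA.bound] at hn
    simp only [TermA.coef]
    rw [Finsupp.single_apply, if_neg (by omega)]
  | zero => simp [TermA.coef]
  | add s t hs ht =>
    simp only [TermA.bound, max_le_iff] at hn
    simp [TermA.coef, hs hn.1, ht hn.2]
  | neg t ht => simp [TermA.coef, ht hn]
  | smul r t ht => simp [TermA.coef, ht hn]

theorem TermA.eval_eq (a : ℕ → A) (t : TermA R) :
    t.eval a = t.coef.sum fun n r => r • a n := by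
  induction t with
  | var k => simp [TermA.coef, TermA.eval_var]
  | zero => simp [TermA.coef, TermA.eval_zero]
  | add s t hs ht =>
    rw [TermA.coef, TermA.eval_add, hs, ht, Finsupp.sum_add_index' (by simp) (by
      intros; rw [add_smul])]
  | neg t ht =>
    rw [TermA.coef, TermA.eval_neg, ht, Finsupp.sum_neg_index (by simp)]
    simp [Finsupp.sum]
  | smul r t ht =>
    rw [TermA.coef, TermA.eval_smul, ht, Finsupp.sum_smul_index (by simp)]
    simp [Finsupp.sum, Finset.smul_sum, mul_smul]

theorem TermA.eval_eq_sum_fin (a : ℕ → A) (t : TermA R) {n : ℕ} (hn : t.bound ≤ n) :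
    t.eval a = ∑ p : Fin n, t.coef p • a p := by
  rw [TermA.eval_eq, Finset.sum_fin_eq_sum_range]
  rw [Finsupp.sum_of_support_subset (s := Finset.range n)]
  · refine Finset.sum_congr rfl fun i hi => ?_
    rw [dif_pos (Finset.mem_range.mp hi)]
  · intro k hk
    rw [Finset.mem_range]
    by_contra hkn
    exact (Finsupp.mem_support_iff.mp hk) (t.coef_eq_zero (le_trans hn (not_lt.mp hkn)))
  · simp

theorem TermB.eval_eq (F : ∀ i, (Fin (ar i) → A) → B) (a : ℕ → A) (b : ℕ → B)
    (t : TermB R S ar) {n : ℕ} (hn : t.bound ≤ n) :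
    t.eval F a b = (t.coefB.sum fun k s => s • b k) + ev F (fun p : Fin n => a p) (t.coefF n) := by
  induction t with
  | var k => simp [TermB.coefB, TermB.coefF, TermB.eval_var]
  | zero => simp [TermB.coefB, TermB.coefF, TermB.eval_zero]
  | add s t hs ht =>
    simp only [TermB.bound, max_le_iff] at hn
    rw [TermB.coefB, TermB.coefF, TermB.eval_add, hs hn.1, ht hn.2, map_add,
      Finsupp.sum_add_index' (by simp) (by intros; rw [add_smul])]
    abel
  | neg t ht =>
    rw [TermB.coefB, TermB.coefF, TermB.eval_neg, ht hn, map_neg, Finsupp.sum_neg_index (by simp)]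
    simp [Finsupp.sum, add_comm]
  | smul r t ht =>
    rw [TermB.coefB, TermB.coefF, TermB.eval_smul, ht hn, ev_smul,
      Finsupp.sum_smul_index (by simp)]
    simp [Finsupp.sum, Finset.smul_sum, mul_smul]
  | app i args =>
    rw [TermB.coefB, TermB.coefF, TermB.eval_app, ev_single]
    simp only [Finsupp.sum_zero_index, zero_add, one_smul]
    congr 1
    funext j
    rw [TermA.eval_eq_sum_fin a (args j) (n := n)
      (le_trans (Finset.le_sup (f := fun j => (args j).bound) (Finset.mem_univ j)) hn)]
    refine Finset.sum_congr rfl fun p _ => ?_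
    simp [wordOf]

/-- The sum of a list of terms of sort 1. -/
def sumA (l : List (TermA R)) : TermA R := l.foldr .add .zero

/-- The sum of a list of terms of sort 2. -/
def sumB (l : List (TermB R S ar)) : TermB R S ar := l.foldr .add .zero

theorem eval_sumA (a : ℕ → A) (l : List (TermA R)) :
    (sumA l).eval a = (l.map (TermA.eval a)).sum := by
  induction l with
  | nil => simp [sumA]
  | cons t l ih =>
    have : sumA (t :: l) = .add t (sumA l) := rfl
    rw [this, TermA.eval_add, ih, List.map_cons, List.sum_cons]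

theorem eval_sumB (F : ∀ i, (Fin (ar i) → A) → B) (a : ℕ → A) (b : ℕ → B)
    (l : List (TermB R S ar)) :
    (sumB l).eval F a b = (l.map (TermB.eval F a b)).sum := by
  induction l with
  | nil => simp [sumB]
  | cons t l ih =>
    have : sumB (t :: l) = .add t (sumB l) := rfl
    rw [this, TermB.eval_add, ih, List.map_cons, List.sum_cons]

/-- The term of a formal sum. -/
noncomputable def toTerm {n : ℕ} (c : Form R S ar n) : TermB R S ar :=
  sumB (c.support.toList.map fun x => .smul (c x) (.app x.1 fun j =>
    sumA (List.ofFn fun p : Fin n => .smul (x.2 p ⟨x.1, j⟩) (.var p))))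

theorem eval_toTerm (F : ∀ i, (Fin (ar i) → A) → B) (a : ℕ → A) (b : ℕ → B) {n : ℕ}
    (c : Form R S ar n) : (toTerm c).eval F a b = ev F (fun p : Fin n => a p) c := by
  rw [toTerm, eval_sumB, ev_apply, List.map_map, Finset.sum_map_toList, Finsupp.sum]
  refine Finset.sum_congr rfl fun x _ => ?_
  simp only [Function.comp_apply, TermB.eval_smul, TermB.eval_app]
  congr 2
  funext j
  rw [eval_sumA, List.map_ofFn, List.sum_ofFn]
  rfl

/-- The module axioms for both sorts. -/
def moduleAxioms : Set (Identity R S ar) :=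
  {.sort1 (.add (.add (.var 0) (.var 1)) (.var 2)) (.add (.var 0) (.add (.var 1) (.var 2))),
   .sort1 (.add (.var 0) (.var 1)) (.add (.var 1) (.var 0)),
   .sort1 (.add .zero (.var 0)) (.var 0),
   .sort1 (.add (.neg (.var 0)) (.var 0)) .zero,
   .sort1 (.smul 1 (.var 0)) (.var 0),
   .sort2 (.add (.add (.var 0) (.var 1)) (.var 2)) (.add (.var 0) (.add (.var 1) (.var 2))),
   .sort2 (.add (.var 0) (.var 1)) (.add (.var 1) (.var 0)),
   .sort2 (.add .zero (.var 0)) (.var 0),
   .sort2 (.add (.neg (.var 0)) (.var 0)) .zero,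
   .sort2 (.smul 1 (.var 0)) (.var 0)} ∪
  ((Set.range fun r : R => .sort1 (.smul r (.add (.var 0) (.var 1)))
      (.add (.smul r (.var 0)) (.smul r (.var 1)))) ∪
  (Set.range fun r : R × R => .sort1 (.smul (r.1 + r.2) (.var 0))
      (.add (.smul r.1 (.var 0)) (.smul r.2 (.var 0)))) ∪
  (Set.range fun r : R × R => .sort1 (.smul (r.1 * r.2) (.var 0))
      (.smul r.1 (.smul r.2 (.var 0)))) ∪
  (Set.range fun r : S => .sort2 (.smul r (.add (.var 0) (.var 1)))
      (.add (.smul r (.var 0)) (.smul r (.var 1)))) ∪
  (Set.range fun r : S × S => .sort2 (.smul (r.1 + r.2) (.var 0))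
      (.add (.smul r.1 (.var 0)) (.smul r.2 (.var 0)))) ∪
  (Set.range fun r : S × S => .sort2 (.smul (r.1 * r.2) (.var 0))
      (.smul r.1 (.smul r.2 (.var 0)))))

theorem moduleAxioms_finite [Finite R] [Finite S] :
    (moduleAxioms (R := R) (S := S) (ar := ar)).Finite := by
  unfold moduleAxioms
  refine Set.Finite.union (by simp) ?_
  repeat' apply Set.Finite.union
  all_goals exact Set.finite_range _

theorem moduleAxioms_hold (F : ∀ i, (Fin (ar i) → A) → B) :
    ∀ e ∈ moduleAxioms (R := R) (S := S) (ar := ar), Holds F e := by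
  intro e he
  simp only [moduleAxioms, Set.mem_union, Set.mem_insert_iff, Set.mem_singleton_iff,
    Set.mem_range] at he
  rcases he with (rfl | rfl | rfl | rfl | rfl | rfl | rfl | rfl | rfl | rfl) |
    (((((⟨r, rfl⟩ | ⟨r, rfl⟩) | ⟨r, rfl⟩) | ⟨r, rfl⟩) | ⟨r, rfl⟩) | ⟨r, rfl⟩) <;>
    simp only [Holds, TermA.eval_var, TermA.eval_zero, TermA.eval_add, TermA.eval_neg,
      TermA.eval_smul, TermB.eval_var, TermB.eval_zero, TermB.eval_add, TermB.eval_neg,
      TermB.eval_smul] <;> intros
  all_goals first
    | exact add_assoc _ _ _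
    | exact add_comm _ _
    | exact zero_add _
    | exact neg_add_cancel _
    | exact one_smul _ _
    | exact smul_add _ _ _
    | exact add_smul _ _ _
    | exact mul_smul _ _ _

/-- Derivable equality of terms of sort 1. -/
def setoidA (E : Set (Identity R S ar)) : Setoid (TermA R) where
  r s t := Derivable E (.sort1 s t)
  iseqv := ⟨fun t => .refl1 t, fun h => .symm1 _ _ h, fun h h' => .trans1 _ _ _ h h'⟩

/-- Derivable equality of terms of sort 2. -/
def setoidB (E : Set (Identity R S ar)) : Setoid (TermB R S ar) where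
  r s t := Derivable E (.sort2 s t)
  iseqv := ⟨fun t => .refl2 t, fun h => .symm2 _ _ h, fun h h' => .trans2 _ _ _ h h'⟩

/-- The first sort of the free algebra of the theory `E`. -/
def QA (E : Set (Identity R S ar)) : Type u := Quotient (setoidA E)

/-- The second sort of the free algebra of the theory `E`. -/
def QB (E : Set (Identity R S ar)) : Type (max u v w) := Quotient (setoidB E)

/-- The class of a term of sort 1. -/
def mkA (E : Set (Identity R S ar)) (t : TermA R) : QA E := Quotient.mk (setoidA E) t

/-- The class of a term of sort 2. -/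
def mkB (E : Set (Identity R S ar)) (t : TermB R S ar) : QB E := Quotient.mk (setoidB E) t

theorem mkA_eq {E : Set (Identity R S ar)} {s t : TermA R} :
    mkA E s = mkA E t ↔ Derivable E (.sort1 s t) := Quotient.eq (r := setoidA E)

theorem mkB_eq {E : Set (Identity R S ar)} {s t : TermB R S ar} :
    mkB E s = mkB E t ↔ Derivable E (.sort2 s t) := Quotient.eq (r := setoidB E)

theorem mkA_surj {E : Set (Identity R S ar)} (x : QA E) : ∃ t, mkA E t = x :=
  Quotient.exists_rep x

theorem mkB_surj {E : Set (Identity R S ar)} (x : QB E) : ∃ t, mkB E t = x :=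
  Quotient.exists_rep x

instance (E : Set (Identity R S ar)) : Add (QA E) :=
  ⟨Quotient.map₂ .add (fun _ _ h _ _ h' => .add1 _ _ _ _ h h')⟩

instance (E : Set (Identity R S ar)) : Neg (QA E) :=
  ⟨Quotient.map .neg (fun _ _ h => .neg1 _ _ h)⟩

instance (E : Set (Identity R S ar)) : Zero (QA E) := ⟨mkA E .zero⟩

instance (E : Set (Identity R S ar)) : SMul R (QA E) :=
  ⟨fun r => Quotient.map (.smul r) (fun _ _ h => .smul1 _ _ _ h)⟩

instance (E : Set (Identity R S ar)) : Add (QB E) :=
  ⟨Quotient.map₂ .add (fun _ _ h _ _ h' => .add2 _ _ _ _ h h')⟩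

instance (E : Set (Identity R S ar)) : Neg (QB E) :=
  ⟨Quotient.map .neg (fun _ _ h => .neg2 _ _ h)⟩

instance (E : Set (Identity R S ar)) : Zero (QB E) := ⟨mkB E .zero⟩

instance (E : Set (Identity R S ar)) : SMul S (QB E) :=
  ⟨fun r => Quotient.map (.smul r) (fun _ _ h => .smul2 _ _ _ h)⟩

theorem mkA_add (E : Set (Identity R S ar)) (s t : TermA R) :
    mkA E (.add s t) = mkA E s + mkA E t := rfl

theorem mkA_neg (E : Set (Identity R S ar)) (t : TermA R) :
    mkA E (.neg t) = -mkA E t := rfl

theorem mkA_zero (E : Set (Identity R S ar)) : mkA E .zero = 0 := rfl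

theorem mkA_smul (E : Set (Identity R S ar)) (r : R) (t : TermA R) :
    mkA E (.smul r t) = r • mkA E t := rfl

theorem mkB_add (E : Set (Identity R S ar)) (s t : TermB R S ar) :
    mkB E (.add s t) = mkB E s + mkB E t := rfl

theorem mkB_neg (E : Set (Identity R S ar)) (t : TermB R S ar) :
    mkB E (.neg t) = -mkB E t := rfl

theorem mkB_zero (E : Set (Identity R S ar)) : mkB E .zero = 0 := rfl

theorem mkB_smul (E : Set (Identity R S ar)) (r : S) (t : TermB R S ar) :
    mkB E (.smul r t) = r • mkB E t := rfl

/-- Substitution instances of axioms of sort 1. -/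
theorem axA {E : Set (Identity R S ar)} {s t : TermA R} (h : .sort1 s t ∈ E)
    (σ : ℕ → TermA R) : mkA E (s.subst σ) = mkA E (t.subst σ) :=
  mkA_eq.mpr (Derivable.subst1 _ _ σ (.ax _ h))

/-- Substitution instances of axioms of sort 2. -/
theorem axB {E : Set (Identity R S ar)} {s t : TermB R S ar} (h : .sort2 s t ∈ E)
    (σ : ℕ → TermA R) (τ : ℕ → TermB R S ar) :
    mkB E (s.subst σ τ) = mkB E (t.subst σ τ) :=
  mkB_eq.mpr (Derivable.subst2 _ _ σ τ (.ax _ h))

/-- The assignment `0 ↦ a, 1 ↦ b, n ↦ c` for `n ≥ 2`. -/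
def asg {α : Type*} (a b c : α) : ℕ → α
  | 0 => a
  | 1 => b
  | _ => c

instance instAddCommGroupQA (E : Set (Identity R S ar)) [hE : Fact (moduleAxioms ⊆ E)] :
    AddCommGroup (QA E) where
  add_assoc := by
    intro x y z
    obtain ⟨a, rfl⟩ := mkA_surj x
    obtain ⟨b, rfl⟩ := mkA_surj y
    obtain ⟨c, rfl⟩ := mkA_surj z
    exact axA (E := E) (s := .add (.add (.var 0) (.var 1)) (.var 2))
      (t := .add (.var 0) (.add (.var 1) (.var 2)))
      (hE.out (by simp [moduleAxioms])) (asg a b c)
  zero_add := by
    intro x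
    obtain ⟨a, rfl⟩ := mkA_surj x
    exact axA (E := E) (s := .add .zero (.var 0)) (t := .var 0)
      (hE.out (by simp [moduleAxioms])) (asg a a a)
  add_comm := by
    intro x y
    obtain ⟨a, rfl⟩ := mkA_surj x
    obtain ⟨b, rfl⟩ := mkA_surj y
    exact axA (E := E) (s := .add (.var 0) (.var 1)) (t := .add (.var 1) (.var 0))
      (hE.out (by simp [moduleAxioms])) (asg a b b)
  add_zero := by
    intro x
    obtain ⟨a, rfl⟩ := mkA_surj x
    have h1 := axA (E := E) (s := .add (.var 0) (.var 1)) (t := .add (.var 1) (.var 0))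
      (hE.out (by simp [moduleAxioms])) (asg a .zero .zero)
    have h2 := axA (E := E) (s := .add .zero (.var 0)) (t := .var 0)
      (hE.out (by simp [moduleAxioms])) (asg a a a)
    exact h1.trans h2
  neg_add_cancel := by
    intro x
    obtain ⟨a, rfl⟩ := mkA_surj x
    exact axA (E := E) (s := .add (.neg (.var 0)) (.var 0)) (t := .zero)
      (hE.out (by simp [moduleAxioms])) (asg a a a)
  nsmul := nsmulRec
  zsmul := zsmulRec

instance instModuleQA (E : Set (Identity R S ar)) [hE : Fact (moduleAxioms ⊆ E)] :
    Module R (QA E) := Module.ofMinimalAxioms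
  (by
    intro r x y
    obtain ⟨a, rfl⟩ := mkA_surj x
    obtain ⟨b, rfl⟩ := mkA_surj y
    exact axA (E := E) (s := .smul r (.add (.var 0) (.var 1)))
      (t := .add (.smul r (.var 0)) (.smul r (.var 1)))
      (hE.out (by simp [moduleAxioms])) (asg a b b))
  (by
    intro r s x
    obtain ⟨a, rfl⟩ := mkA_surj x
    exact axA (E := E) (s := .smul (r + s) (.var 0))
      (t := .add (.smul r (.var 0)) (.smul s (.var 0)))
      (hE.out (by simp [moduleAxioms])) (asg a a a))
  (by
    intro r s x
    obtain ⟨a, rfl⟩ := mkA_surj x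
    exact axA (E := E) (s := .smul (r * s) (.var 0))
      (t := .smul r (.smul s (.var 0)))
      (hE.out (by simp [moduleAxioms])) (asg a a a))
  (by
    intro x
    obtain ⟨a, rfl⟩ := mkA_surj x
    exact axA (E := E) (s := .smul 1 (.var 0)) (t := .var 0)
      (hE.out (by simp [moduleAxioms])) (asg a a a))

instance instAddCommGroupQB (E : Set (Identity R S ar)) [hE : Fact (moduleAxioms ⊆ E)] :
    AddCommGroup (QB E) where
  add_assoc := by
    intro x y z
    obtain ⟨a, rfl⟩ := mkB_surj x
    obtain ⟨b, rfl⟩ := mkB_surj y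
    obtain ⟨c, rfl⟩ := mkB_surj z
    exact axB (E := E) (s := .add (.add (.var 0) (.var 1)) (.var 2))
      (t := .add (.var 0) (.add (.var 1) (.var 2)))
      (hE.out (by simp [moduleAxioms])) (fun _ => .zero) (asg a b c)
  zero_add := by
    intro x
    obtain ⟨a, rfl⟩ := mkB_surj x
    exact axB (E := E) (s := .add .zero (.var 0)) (t := .var 0)
      (hE.out (by simp [moduleAxioms])) (fun _ => .zero) (asg a a a)
  add_comm := by
    intro x y
    obtain ⟨a, rfl⟩ := mkB_surj x
    obtain ⟨b, rfl⟩ := mkB_surj y
    exact axB (E := E) (s := .add (.var 0) (.var 1)) (t := .add (.var 1) (.var 0))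
      (hE.out (by simp [moduleAxioms])) (fun _ => .zero) (asg a b b)
  add_zero := by
    intro x
    obtain ⟨a, rfl⟩ := mkB_surj x
    have h1 := axB (E := E) (s := .add (.var 0) (.var 1)) (t := .add (.var 1) (.var 0))
      (hE.out (by simp [moduleAxioms])) (fun _ => .zero) (asg a .zero .zero)
    have h2 := axB (E := E) (s := .add .zero (.var 0)) (t := .var 0)
      (hE.out (by simp [moduleAxioms])) (fun _ => .zero) (asg a a a)
    exact h1.trans h2
  neg_add_cancel := by
    intro x
    obtain ⟨a, rfl⟩ := mkB_surj x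
    exact axB (E := E) (s := .add (.neg (.var 0)) (.var 0)) (t := .zero)
      (hE.out (by simp [moduleAxioms])) (fun _ => .zero) (asg a a a)
  nsmul := nsmulRec
  zsmul := zsmulRec

instance instModuleQB (E : Set (Identity R S ar)) [hE : Fact (moduleAxioms ⊆ E)] :
    Module S (QB E) := Module.ofMinimalAxioms
  (by
    intro r x y
    obtain ⟨a, rfl⟩ := mkB_surj x
    obtain ⟨b, rfl⟩ := mkB_surj y
    exact axB (E := E) (s := .smul r (.add (.var 0) (.var 1)))
      (t := .add (.smul r (.var 0)) (.smul r (.var 1)))
      (hE.out (by simp [moduleAxioms])) (fun _ => .zero) (asg a b b))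
  (by
    intro r s x
    obtain ⟨a, rfl⟩ := mkB_surj x
    exact axB (E := E) (s := .smul (r + s) (.var 0))
      (t := .add (.smul r (.var 0)) (.smul s (.var 0)))
      (hE.out (by simp [moduleAxioms])) (fun _ => .zero) (asg a a a))
  (by
    intro r s x
    obtain ⟨a, rfl⟩ := mkB_surj x
    exact axB (E := E) (s := .smul (r * s) (.var 0))
      (t := .smul r (.smul s (.var 0)))
      (hE.out (by simp [moduleAxioms])) (fun _ => .zero) (asg a a a))
  (by
    intro x
    obtain ⟨a, rfl⟩ := mkB_surj x
    exact axB (E := E) (s := .smul 1 (.var 0)) (t := .var 0)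
      (hE.out (by simp [moduleAxioms])) (fun _ => .zero) (asg a a a))

/-- The operations of the free algebra of the theory `E`. -/
noncomputable def QF (E : Set (Identity R S ar)) (i : ι) (q : Fin (ar i) → QA E) : QB E :=
  mkB E (.app i fun j => (mkA_surj (q j)).choose)

theorem QF_mk (E : Set (Identity R S ar)) (i : ι) (t : Fin (ar i) → TermA R) :
    QF E i (fun j => mkA E (t j)) = mkB E (.app i t) :=
  mkB_eq.mpr (.app2 i _ _ fun j => mkA_eq.mp (mkA_surj (mkA E (t j))).choose_spec)

theorem mkA_subst (E : Set (Identity R S ar)) [Fact (moduleAxioms ⊆ E)] (σ : ℕ → TermA R)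
    (t : TermA R) : mkA E (t.subst σ) = t.eval (fun n => mkA E (σ n)) := by
  induction t with
  | var n => rfl
  | zero => rfl
  | add s t hs ht => rw [TermA.subst_add, mkA_add, hs, ht, TermA.eval_add]
  | neg t ht => rw [TermA.subst_neg, mkA_neg, ht, TermA.eval_neg]
  | smul r t ht => rw [TermA.subst_smul, mkA_smul, ht, TermA.eval_smul]

theorem mkB_subst (E : Set (Identity R S ar)) [Fact (moduleAxioms ⊆ E)] (σ : ℕ → TermA R)
    (τ : ℕ → TermB R S ar) (t : TermB R S ar) :
    mkB E (t.subst σ τ) = t.eval (QF E) (fun n => mkA E (σ n)) (fun n => mkB E (τ n)) := by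
  induction t with
  | var n => rfl
  | zero => rfl
  | add s t hs ht => rw [TermB.subst_add, mkB_add, hs, ht, TermB.eval_add]
  | neg t ht => rw [TermB.subst_neg, mkB_neg, ht, TermB.eval_neg]
  | smul r t ht => rw [TermB.subst_smul, mkB_smul, ht, TermB.eval_smul]
  | app i args =>
    rw [TermB.subst_app, ← QF_mk, TermB.eval_app]
    congr 1
    funext j
    exact mkA_subst E σ (args j)

theorem TermA.subst_var (t : TermA R) : t.subst .var = t := by
  induction t with
  | var n => rfl
  | zero => rfl
  | add s t hs ht => rw [TermA.subst_add, hs, ht]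
  | neg t ht => rw [TermA.subst_neg, ht]
  | smul r t ht => rw [TermA.subst_smul, ht]

theorem TermB.subst_var (t : TermB R S ar) : t.subst .var .var = t := by
  induction t with
  | var n => rfl
  | zero => rfl
  | add s t hs ht => rw [TermB.subst_add, hs, ht]
  | neg t ht => rw [TermB.subst_neg, ht]
  | smul r t ht => rw [TermB.subst_smul, ht]
  | app i args => simp only [TermB.subst, TermA.subst_var]

theorem coef_annihilates {c : ℕ →₀ R} (h : ∀ a : ℕ → A, (c.sum fun n r => r • a n) = 0)
    (n : ℕ) (x : A) : c n • x = 0 := by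
  classical
  have := h (Pi.single n x)
  rw [Finsupp.sum, Finset.sum_eq_single n] at this
  · simpa using this
  · intro m _ hmn
    simp [Pi.single_eq_of_ne hmn]
  · intro hn
    rw [Finsupp.notMem_support_iff.mp hn, zero_smul]

theorem sum_eq_zero_of_annihilates {M : Type*} [AddCommGroup M] [Module R M] {c : ℕ →₀ R}
    (h : ∀ n, ∀ x : M, c n • x = 0) (a : ℕ → M) : (c.sum fun n r => r • a n) = 0 := by
  rw [Finsupp.sum]
  exact Finset.sum_eq_zero fun n _ => h n (a n)

theorem sum_sub {M : Type*} [AddCommGroup M] [Module R M] (c d : ℕ →₀ R) (a : ℕ → M) :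
    ((c - d).sum fun n r => r • a n) = (c.sum fun n r => r • a n) - (d.sum fun n r => r • a n) :=
  Finsupp.sum_sub_index (by intros; rw [sub_smul])

end Aux

/-- **Finite equational bases.** Let `R` and `S` be finite rings, `A` an `R`-module, `B` an
`S`-module (for instance finite modules) and `F` a finite family of finitary operations
`F i : A ^ (ar i) → B`. There is a finite set `E` of identities true in the two-sorted algebra
`M(A, B, F)` from which every identity true in `M(A, B, F)` can be derived. -/
theorem finite_basis {R : Type u} {S : Type v} {ι : Type w} {A : Type*} {B : Type*}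
    [Ring R] [Finite R] [Ring S] [Finite S] [Finite ι]
    [AddCommGroup A] [Module R A] [AddCommGroup B] [Module S B]
    (ar : ι → ℕ) (F : ∀ i, (Fin (ar i) → A) → B) :
    ∃ E : Set (Identity R S ar), E.Finite ∧ (∀ e ∈ E, Holds F e) ∧
      ∀ e : Identity R S ar, Holds F e → Derivable E e := by
  classical
  -- the relations valid in `M(A, B, F)`
  let K : ∀ n, AddSubgroup (Form R S ar n) := fun n => ⨅ q : Fin n → A, (ev F q).ker
  have hKmem : ∀ n (c : Form R S ar n), c ∈ K n ↔ ∀ q : Fin n → A, ev F q c = 0 := by
    intro n c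
    simp [K, AddSubgroup.mem_iInf, AddMonoidHom.mem_ker]
  obtain ⟨T, hTfin, hTK, hT⟩ := exists_finite_generators_words
    (ι := ι) (Λ := Letter R ar) (S := S) K (by
      intro n m φ _ c hc
      rw [hKmem] at hc ⊢
      intro q
      rw [ev_push]
      exact hc _)
  -- the finite basis
  let E : Set (Identity R S ar) := moduleAxioms ∪
    (((fun r : R => .sort1 (.smul r (.var 0)) .zero) '' {r : R | ∀ x : A, r • x = 0}) ∪
    ((fun r : S => .sort2 (.smul r (.var 0)) .zero) '' {r : S | ∀ x : B, r • x = 0}) ∪
    ((fun t : Σ n, Form R S ar n => .sort2 (toTerm t.2) .zero) '' T))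
  have hEsub : moduleAxioms ⊆ E := Set.subset_union_left
  have : Fact (moduleAxioms ⊆ E) := ⟨hEsub⟩
  refine ⟨E, ?_, ?_, ?_⟩
  · refine Set.Finite.union moduleAxioms_finite ?_
    refine Set.Finite.union (Set.Finite.union ?_ ?_) (hTfin.image _)
    · exact (Set.toFinite _).image _
    · exact (Set.toFinite _).image _
  · intro e he
    rcases he with he | ((⟨r, hr, rfl⟩ | ⟨r, hr, rfl⟩) | ⟨t, ht, rfl⟩)
    · exact moduleAxioms_hold F e he
    · intro a
      exact hr _
    · intro a b
      exact hr _
    · intro a b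
      rw [eval_toTerm]
      exact (hKmem _ _).mp (hTK t ht) _
  · -- the annihilator axioms hold in the free algebra
    have hannA : ∀ r : R, (∀ x : A, r • x = 0) → ∀ x : QA E, r • x = 0 := by
      intro r hr x
      obtain ⟨t, rfl⟩ := mkA_surj x
      exact axA (E := E) (s := .smul r (.var 0)) (t := .zero)
        (Or.inr (Or.inl (Or.inl ⟨r, hr, rfl⟩))) (asg t t t)
    have hannB : ∀ r : S, (∀ x : B, r • x = 0) → ∀ x : QB E, r • x = 0 := by
      intro r hr x
      obtain ⟨t, rfl⟩ := mkB_surj x
      exact axB (E := E) (s := .smul r (.var 0)) (t := .zero)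
        (Or.inr (Or.inl (Or.inr ⟨r, hr, rfl⟩))) (fun _ => .zero) (asg t t t)
    -- the relations valid in `M(A, B, F)` hold in the free algebra
    let K' : ∀ n, AddSubgroup (Form R S ar n) := fun n => ⨅ q : Fin n → QA E, (ev (QF E) q).ker
    have hK'mem : ∀ n (c : Form R S ar n), c ∈ K' n ↔
        ∀ q : Fin n → QA E, ev (QF E) q c = 0 := by
      intro n c
      simp [K', AddSubgroup.mem_iInf, AddMonoidHom.mem_ker]
    have hKK' : ∀ n, K n ≤ K' n := by
      refine hT K' ?_ ?_
      · intro n m φ _ c hc
        rw [hK'mem] at hc ⊢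
        intro q
        rw [ev_push]
        exact hc _
      · intro t ht
        rw [hK'mem]
        intro q
        have hσ : ∀ n : ℕ, ∃ u : TermA R, ∀ h : n < t.1, mkA E u = q ⟨n, h⟩ := by
          intro n
          by_cases h : n < t.1
          · obtain ⟨u, hu⟩ := mkA_surj (q ⟨n, h⟩)
            exact ⟨u, fun _ => hu⟩
          · exact ⟨.zero, fun h' => absurd h' h⟩
        choose σ hσ using hσ
        have h1 := axB (E := E) (s := toTerm t.2) (t := .zero)
          (Or.inr (Or.inr ⟨t, ht, rfl⟩)) σ (fun _ => .zero)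
        rw [mkB_subst, eval_toTerm] at h1
        have h2 : (fun p : Fin t.1 => mkA E (σ p)) = q := by
          funext p
          exact hσ p p.2
        rw [h2] at h1
        exact h1
    intro e he
    cases e with
    | sort1 s t =>
      rw [← mkA_eq, ← s.subst_var, ← t.subst_var, mkA_subst, mkA_subst, TermA.eval_eq,
        TermA.eval_eq, ← sub_eq_zero, ← sum_sub]
      refine sum_eq_zero_of_annihilates (fun n x => hannA _ ?_ x) _
      refine coef_annihilates (c := s.coef - t.coef) ?_ n
      intro a
      rw [sum_sub, ← TermA.eval_eq, ← TermA.eval_eq, he a, sub_self]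
    | sort2 s t =>
      obtain ⟨n, hn1, hn2⟩ : ∃ n, s.bound ≤ n ∧ t.bound ≤ n :=
        ⟨max s.bound t.bound, le_max_left _ _, le_max_right _ _⟩
      have hcF : s.coefF n - t.coefF n ∈ K n := by
        rw [hKmem]
        intro q
        have h := he (fun k => if h : k < n then q ⟨k, h⟩ else 0) (fun _ => 0)
        rw [TermB.eval_eq F _ _ s hn1, TermB.eval_eq F _ _ t hn2] at h
        have h2 : (fun p : Fin n => (fun k : ℕ => if h : k < n then q ⟨k, h⟩ else 0) p) = q := by
          funext p
          simp
        rw [h2] at h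
        simp only [smul_zero, Finsupp.sum_fun_zero, zero_add] at h
        rw [map_sub, h, sub_self]
      have hcB : ∀ b : ℕ → B, ((s.coefB - t.coefB).sum fun k r => r • b k) = 0 := by
        intro b
        have h := he (fun _ => 0) b
        rw [TermB.eval_eq F _ _ s hn1, TermB.eval_eq F _ _ t hn2] at h
        have h3 := (hKmem _ _).mp hcF (fun _ => 0)
        rw [map_sub, sub_eq_zero] at h3
        rw [h3] at h
        rw [sum_sub, sub_eq_zero]
        exact add_right_cancel h
      rw [← mkB_eq, ← s.subst_var, ← t.subst_var, mkB_subst, mkB_subst,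
        TermB.eval_eq _ _ _ s hn1, TermB.eval_eq _ _ _ t hn2]
      have h4 := (hK'mem _ _).mp (hKK' n hcF) (fun p => mkA E (.var p))
      rw [map_sub, sub_eq_zero] at h4
      rw [h4]
      congr 1
      rw [← sub_eq_zero, ← sum_sub]
      exact sum_eq_zero_of_annihilates (fun k x => hannB _ (coef_annihilates hcB k) x) _

end Pool.Agent.Clonoid
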